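import Pool.Agent.Helper84.PCF.Reg

set_option autoImplicit false

namespace Pool.Agent.Helper84.PCF

open Finset
open scoped Classical

/-- The box `{0, ..., n - 1} ^ d`. -/
noncomputable def box (d n : ℕ) : Finset (Fin d → ℤ) := Fintype.piFinset fun _ => Finset.Ico (0 : ℤ) n

theorem mem_box {d n : ℕ} {x : Fin d → ℤ} : x ∈ box d n ↔ ∀ i, 0 ≤ x i ∧ x i < n := by
  unfold box
  rw [Fintype.mem_piFinset]
  simp only [mem_Ico]

theorem card_box (d n : ℕ) : (box d n).card = n ^ d := by
  unfold box
  rw [Fintype.card_piFinset]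
  simp

/-- the points with a right neighbour in direction `i` -/
noncomputable def sub (d n : ℕ) (i : Fin d) : Finset (Fin d → ℤ) :=
  Fintype.piFinset fun j => if j = i then Finset.Ico (0 : ℤ) n else Finset.Ico (0 : ℤ) (n + 1 : ℕ)

theorem card_sub (d n : ℕ) (i : Fin d) : (sub (d) n i).card = n * (n + 1) ^ (d - 1) := by
  unfold sub
  rw [Fintype.card_piFinset, ← Finset.mul_prod_erase univ _ (mem_univ i), if_pos rfl]
  have h1 : ∏ x ∈ univ.erase i, (if x = i then Finset.Ico (0 : ℤ) n
      else Finset.Ico (0 : ℤ) (n + 1 : ℕ)).card = ∏ _x ∈ univ.erase i, (n + 1) := by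
    refine prod_congr rfl fun j hj => ?_
    rw [if_neg (ne_of_mem_erase hj), Int.card_Ico]
    simp
  rw [h1, prod_const, card_erase_of_mem (mem_univ i), card_univ, Fintype.card_fin, Int.card_Ico]
  simp

theorem card_edges_box (d n : ℕ) :
    d * (n * (n + 1) ^ (d - 1)) ≤ (edges (box d (n + 1))).card := by
  have hm : ∀ (i : Fin d) (x : Fin d → ℤ), x ∈ sub d n i → x ∈ box d (n + 1) ∧
      x + Pi.single i 1 ∈ box d (n + 1) := by
    intro i x hx
    unfold sub at hx
    rw [Fintype.mem_piFinset] at hx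
    constructor
    · rw [mem_box]
      intro j
      have := hx j
      split_ifs at this with h
      · rw [mem_Ico] at this
        push_cast
        exact ⟨this.1, by linarith [this.2]⟩
      · rw [mem_Ico] at this
        exact this
    · rw [mem_box]
      intro j
      have := hx j
      by_cases h : j = i
      · subst h
        rw [if_pos rfl, mem_Ico] at this
        rw [Pi.add_apply, Pi.single_eq_same]
        push_cast
        exact ⟨by linarith [this.1], by linarith [this.2]⟩
      · rw [if_neg h, mem_Ico] at this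
        rw [Pi.add_apply, Pi.single_eq_of_ne h, add_zero]
        exact this
  have h1 : ((univ : Finset (Fin d)).sigma (fun i => sub d n i)).card =
      d * (n * (n + 1) ^ (d - 1)) := by
    rw [card_sigma, sum_congr rfl fun i _ => card_sub d n i, sum_const, card_univ,
      Fintype.card_fin, smul_eq_mul]
  rw [← h1]
  let f : (Σ _ : Fin d, (Fin d → ℤ)) → Sym2 {x // x ∈ box d (n + 1)} := fun p =>
    if h : p.2 ∈ box d (n + 1) ∧ p.2 + Pi.single p.1 1 ∈ box d (n + 1) then
      s(⟨p.2, h.1⟩, ⟨p.2 + Pi.single p.1 1, h.2⟩) else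
      s(⟨fun _ => 0, mem_box.2 fun _ => ⟨le_rfl, by positivity⟩⟩,
        ⟨fun _ => 0, mem_box.2 fun _ => ⟨le_rfl, by positivity⟩⟩)
  apply card_le_card_of_injOn f
  · rintro ⟨i, x⟩ hp
    have hp' : x ∈ sub d n i := (mem_sigma.1 hp).2
    have h := hm i x hp'
    show f ⟨i, x⟩ ∈ (edges (box d (n + 1)) : Set _)
    have e : f ⟨i, x⟩ = s(⟨x, h.1⟩, ⟨x + Pi.single i 1, h.2⟩) := dif_pos h
    rw [e, Finset.mem_coe]
    unfold edges
    rw [mem_filter]
    exact ⟨mem_univ _, _, _, rfl, i, rfl⟩
  · rintro ⟨i, x⟩ hp ⟨j, y⟩ hq hpq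
    have hx := hm i x (mem_sigma.1 hp).2
    have hy := hm j y (mem_sigma.1 hq).2
    have e1 : f ⟨i, x⟩ = s(⟨x, hx.1⟩, ⟨x + Pi.single i 1, hx.2⟩) := dif_pos hx
    have e2 : f ⟨j, y⟩ = s(⟨y, hy.1⟩, ⟨y + Pi.single j 1, hy.2⟩) := dif_pos hy
    rw [e1, e2, Sym2.eq_iff] at hpq
    rcases hpq with ⟨h3, h4⟩ | ⟨h3, h4⟩
    · have h5 : x = y := congrArg Subtype.val h3
      have h6 : x + Pi.single i 1 = y + Pi.single j 1 := congrArg Subtype.val h4
      subst h5
      have h7 : (Pi.single i 1 : Fin d → ℤ) = Pi.single j 1 := add_left_cancel h6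
      have h8 := congrFun h7 i
      rw [Pi.single_eq_same] at h8
      by_cases hij : i = j
      · subst hij
        rfl
      · rw [Pi.single_eq_of_ne hij] at h8
        exact absurd h8 one_ne_zero
    · exfalso
      have h5 : x = y + Pi.single j 1 := congrArg Subtype.val h3
      have h6 : x + Pi.single i 1 = y := congrArg Subtype.val h4
      have h7 := congrFun h6 i
      rw [h5, Pi.add_apply, Pi.add_apply, Pi.single_eq_same] at h7
      have h8 : (0 : ℤ) ≤ (Pi.single j 1 : Fin d → ℤ) i := by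
        by_cases hij : i = j
        · subst hij
          rw [Pi.single_eq_same]
          norm_num
        · rw [Pi.single_eq_of_ne hij]
      linarith

end Pool.Agent.Helper84.PCF
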