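import Mathlib

set_option autoImplicit false

/-!
Percolation with constant freezing on a finite graph, at rate `α`.
-/

namespace Pool.Agent.Helper84.PCF

open Finset
open scoped Classical

variable {V : Type} [Fintype V]

/-- The open cluster of `x`, for the set `O` of open edges. -/
noncomputable def cluster (O : Finset (Sym2 V)) (x : V) : Finset V :=
  univ.filter (fun y => (SimpleGraph.fromEdgeSet (O : Set (Sym2 V))).Reachable x y)

/-- The closed edges with both endpoints warm (`E` is the edge set, `F` the set of frozen vertices,
`O` the set of open edges); each of them opens at rate `1`. -/
noncomputable def live (E : Finset (Sym2 V)) (F : Finset V) (O : Finset (Sym2 V)) :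
    Finset (Sym2 V) :=
  E.filter (fun e => e ∉ O ∧ ∀ v ∈ e, v ∉ F)

/-- The clusters of warm vertices; each of them freezes at rate `α`. -/
noncomputable def warm (F : Finset V) (O : Finset (Sym2 V)) : Finset (Finset V) :=
  (univ.filter (fun x => x ∉ F)).image (cluster O)

/-- The expectation of `φ` (the open edges) after at most `n` jumps of the process started with the
frozen vertices `F` and the open edges `O`; the process is stopped when no edge can open any more
(the open edges are then final). The next jump is the opening of the edge `e ∈ live E F O` with
probability `1 / R` and the freezing of the cluster `C ∈ warm F O` with probability `α / R`,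
`R = |live E F O| + α |warm F O|`. -/
noncomputable def ev (E : Finset (Sym2 V)) (α : ℝ) (φ : Finset (Sym2 V) → ℝ) :
    ℕ → Finset V → Finset (Sym2 V) → ℝ
  | 0, _, O => φ O
  | n + 1, F, O => if live E F O = ∅ then φ O else
      (∑ e ∈ live E F O, ev E α φ n F (insert e O) +
        α * ∑ C ∈ warm F O, ev E α φ n (F ∪ C) O) /
          ((live E F O).card + α * (warm F O).card)

/-- The expectation of `φ` (the open edges of the final configuration) for percolation with constant
freezing at rate `α` on the graph with the vertex set `V` and the edge set `E`. (Each jump opens an
edge of `E` or freezes at least one vertex, so there are at most `|E| + |V|` jumps.) -/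
noncomputable def pcf (E : Finset (Sym2 V)) (α : ℝ) (φ : Finset (Sym2 V) → ℝ) : ℝ :=
  ev E α φ (E.card + Fintype.card V) ∅ ∅

end Pool.Agent.Helper84.PCF
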