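import Pool.Agent.Helper84.PCF.Defs

set_option autoImplicit false

namespace Pool.Agent.Helper84.PCF

open Finset
open scoped Classical

variable {V : Type} [Fintype V]

theorem mem_cluster {O : Finset (Sym2 V)} {x y : V} : y ∈ cluster O x ↔
    (SimpleGraph.fromEdgeSet (O : Set (Sym2 V))).Reachable x y := by
  unfold cluster
  rw [mem_filter]
  exact ⟨fun h => h.2, fun h => ⟨mem_univ _, h⟩⟩

theorem self_mem_cluster (O : Finset (Sym2 V)) (x : V) : x ∈ cluster O x :=
  mem_cluster.2 (SimpleGraph.Reachable.refl x)

theorem cluster_eq {O : Finset (Sym2 V)} {x y : V} (h : y ∈ cluster O x) :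
    cluster O y = cluster O x := by
  have h1 := mem_cluster.1 h
  ext z
  rw [mem_cluster, mem_cluster]
  exact ⟨fun h2 => h1.trans h2, fun h2 => h1.symm.trans h2⟩

theorem rate_pos {E : Finset (Sym2 V)} {α : ℝ} (hα : 0 < α) {F : Finset V} {O : Finset (Sym2 V)}
    (h : live E F O ≠ ∅) : (0 : ℝ) < (live E F O).card + α * (warm F O).card := by
  have h1 : 0 < (live E F O).card := card_pos.2 (nonempty_iff_ne_empty.2 h)
  have h2 : (0 : ℝ) < (live E F O).card := by exact_mod_cast h1
  positivity

theorem live_sub {E : Finset (Sym2 V)} {F : Finset V} {O : Finset (Sym2 V)} {e : Sym2 V}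
    (he : e ∈ live E F O) : e ∈ E := (mem_filter.1 he).1

theorem ev_mono {E : Finset (Sym2 V)} {α : ℝ} (hα : 0 < α) {φ ψ : Finset (Sym2 V) → ℝ}
    (h : ∀ O ⊆ E, φ O ≤ ψ O) (n : ℕ) : ∀ (F : Finset V) (O : Finset (Sym2 V)), O ⊆ E →
      ev E α φ n F O ≤ ev E α ψ n F O := by
  induction n with
  | zero => intro F O hO; exact h O hO
  | succ n ih =>
    intro F O hO
    simp only [ev]
    split_ifs with h1
    · exact h O hO
    · apply div_le_div_of_nonneg_right _ (rate_pos hα h1).le
      apply add_le_add
      · exact sum_le_sum fun e he => ih _ _ (insert_subset (live_sub he) hO)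
      · exact mul_le_mul_of_nonneg_left (sum_le_sum fun C _ => ih _ _ hO) hα.le

theorem ev_const {E : Finset (Sym2 V)} {α : ℝ} (hα : 0 < α) (c : ℝ) (n : ℕ) :
    ∀ (F : Finset V) (O : Finset (Sym2 V)), ev E α (fun _ => c) n F O = c := by
  induction n with
  | zero => intro F O; rfl
  | succ n ih =>
    intro F O
    simp only [ev]
    split_ifs with h1
    · rfl
    · have h2 := rate_pos hα h1
      rw [div_eq_iff h2.ne', sum_congr rfl fun e _ => ih F (insert e O),
        sum_congr rfl fun C _ => ih (F ∪ C) O, sum_const, sum_const, nsmul_eq_mul, nsmul_eq_mul]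
      ring

theorem ev_add {E : Finset (Sym2 V)} {α : ℝ} (φ ψ : Finset (Sym2 V) → ℝ) (n : ℕ) :
    ∀ (F : Finset V) (O : Finset (Sym2 V)),
      ev E α (fun O => φ O + ψ O) n F O = ev E α φ n F O + ev E α ψ n F O := by
  induction n with
  | zero => intro F O; rfl
  | succ n ih =>
    intro F O
    simp only [ev]
    split_ifs with h1
    · rfl
    · rw [← add_div, sum_congr rfl fun e _ => ih F (insert e O),
        sum_congr rfl fun C _ => ih (F ∪ C) O, sum_add_distrib, sum_add_distrib]
      congr 1
      ring

theorem ev_smul {E : Finset (Sym2 V)} {α : ℝ} (c : ℝ) (φ : Finset (Sym2 V) → ℝ) (n : ℕ) :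
    ∀ (F : Finset V) (O : Finset (Sym2 V)),
      ev E α (fun O => c * φ O) n F O = c * ev E α φ n F O := by
  induction n with
  | zero => intro F O; rfl
  | succ n ih =>
    intro F O
    simp only [ev]
    split_ifs with h1
    · rfl
    · rw [sum_congr rfl fun e _ => ih F (insert e O),
        sum_congr rfl fun C _ => ih (F ∪ C) O, ← mul_sum, ← mul_sum, ← mul_div_assoc]
      congr 1
      ring

theorem ev_sum {E : Finset (Sym2 V)} {α : ℝ} (hα : 0 < α) {ι : Type} (s : Finset ι)
    (φ : ι → Finset (Sym2 V) → ℝ) (n : ℕ) (F : Finset V) (O : Finset (Sym2 V)) :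
      ev E α (fun O => ∑ i ∈ s, φ i O) n F O = ∑ i ∈ s, ev E α (φ i) n F O := by
  induction s using Finset.induction_on with
  | empty => simp only [sum_empty]; exact ev_const hα 0 n F O
  | insert a s ha ih =>
    rw [sum_insert ha, ← ih, ← ev_add]
    congr 1
    funext O
    rw [sum_insert ha]

/-- the indicator of the event that the edge is open -/
noncomputable def ind (e : Sym2 V) (O : Finset (Sym2 V)) : ℝ := if e ∈ O then 1 else 0

/-- An open edge stays open. -/
theorem ev_open {E : Finset (Sym2 V)} {α : ℝ} (hα : 0 < α) (e : Sym2 V) (n : ℕ) :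
    ∀ (F : Finset V) (O : Finset (Sym2 V)), e ∈ O →
      ev E α (ind e) n F O = 1 := by
  induction n with
  | zero => intro F O he; simp only [ev, ind]; rw [if_pos he]
  | succ n ih =>
    intro F O he
    simp only [ev]
    split_ifs with h1
    · unfold ind
      rw [if_pos he]
    · have h2 := rate_pos hα h1
      rw [div_eq_iff h2.ne', sum_congr rfl fun f _ => ih F (insert f O) (mem_insert_of_mem he),
        sum_congr rfl fun C _ => ih (F ∪ C) O he, sum_const, sum_const, nsmul_eq_mul, nsmul_eq_mul]
      ring

theorem ev_nonneg {E : Finset (Sym2 V)} {α : ℝ} (hα : 0 < α) (e : Sym2 V) (n : ℕ) :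
    ∀ (F : Finset V) (O : Finset (Sym2 V)),
      0 ≤ ev E α (ind e) n F O := by
  induction n with
  | zero => intro F O; simp only [ev, ind]; split_ifs <;> norm_num
  | succ n ih =>
    intro F O
    simp only [ev]
    split_ifs with h1
    · unfold ind
      split_ifs <;> norm_num
    · apply div_nonneg _ (rate_pos hα h1).le
      exact add_nonneg (sum_nonneg fun f _ => ih _ _)
        (mul_nonneg hα.le (sum_nonneg fun C _ => ih _ _))

/-- A closed edge with warm endpoints opens with probability at least `1 / (1 + 2 α)`. -/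
theorem ev_edge {E : Finset (Sym2 V)} {α : ℝ} (hα : 0 < α) (u v : V) (he : s(u, v) ∈ E) (n : ℕ) :
    ∀ (F : Finset V) (O : Finset (Sym2 V)), s(u, v) ∉ O → u ∉ F → v ∉ F →
      (E \ O).card + (univ \ F).card ≤ n →
      1 / (1 + 2 * α) ≤ ev E α (ind s(u, v)) n F O := by
  set c : ℝ := 1 / (1 + 2 * α) with hc
  have hc0 : 0 < c := by positivity
  have hc1 : c * (1 + 2 * α) = 1 := by rw [hc]; field_simp
  induction n with
  | zero =>
    intro F O hO hu hv hn
    exfalso
    have : u ∈ univ \ F := mem_sdiff.2 ⟨mem_univ _, hu⟩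
    have := card_pos.2 ⟨u, this⟩
    omega
  | succ n ih =>
    intro F O hO hu hv hn
    have hlive : s(u, v) ∈ live E F O := by
      unfold live
      rw [mem_filter]
      refine ⟨he, hO, fun w hw => ?_⟩
      rcases Sym2.mem_iff.1 hw with rfl | rfl
      · exact hu
      · exact hv
    have h1 : live E F O ≠ ∅ := ne_empty_of_mem hlive
    simp only [ev]
    rw [if_neg h1, le_div_iff₀ (rate_pos hα h1)]
    have hA : 1 + ((live E F O).card - 1) * c ≤ ∑ e ∈ live E F O,
        ev E α (ind s(u, v)) n F (insert e O) := by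
      rw [← add_sum_erase _ _ hlive]
      apply add_le_add
      · rw [ev_open hα _ _ _ _ (mem_insert_self _ _)]
      · have h3 : ((live E F O).erase s(u, v)).card • c ≤ ∑ e ∈ (live E F O).erase s(u, v),
            ev E α (ind s(u, v)) n F (insert e O) := by
          apply card_nsmul_le_sum
          intro e hee
          have hne := ne_of_mem_erase hee
          have hel := mem_of_mem_erase hee
          refine ih F (insert e O) ?_ hu hv ?_
          · rw [mem_insert, not_or]
            exact ⟨fun h => hne h.symm, hO⟩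
          · have h4 : (E \ insert e O).card < (E \ O).card := by
              apply card_lt_card
              refine ⟨sdiff_subset_sdiff subset_rfl (subset_insert _ _), fun h => ?_⟩
              have h5 : e ∈ E \ O := mem_sdiff.2 ⟨live_sub hel, (mem_filter.1 hel).2.1⟩
              exact (mem_sdiff.1 (h h5)).2 (mem_insert_self _ _)
            omega
        rw [card_erase_of_mem hlive, nsmul_eq_mul, Nat.cast_sub (card_pos.2 ⟨_, hlive⟩)] at h3
        push_cast at h3
        exact h3
    have hB : ((warm F O).card - 2) * c ≤ ∑ C ∈ warm F O,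
        ev E α (ind s(u, v)) n (F ∪ C) O := by
      set G := (warm F O).filter (fun C => u ∉ C ∧ v ∉ C) with hG
      have h3 : G.card • c ≤ ∑ C ∈ G,
          ev E α (ind s(u, v)) n (F ∪ C) O := by
        apply card_nsmul_le_sum
        intro C hC
        obtain ⟨hC1, hC2, hC3⟩ := mem_filter.1 hC
        obtain ⟨x, hx, rfl⟩ := mem_image.1 hC1
        have hxF := (mem_filter.1 hx).2
        refine ih _ O hO ?_ ?_ ?_
        · rw [mem_union, not_or]; exact ⟨hu, hC2⟩
        · rw [mem_union, not_or]; exact ⟨hv, hC3⟩
        · have h4 : (univ \ (F ∪ cluster O x)).card < (univ \ F).card := by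
            apply card_lt_card
            refine ⟨sdiff_subset_sdiff subset_rfl subset_union_left, fun h => ?_⟩
            have h5 : x ∈ univ \ F := mem_sdiff.2 ⟨mem_univ _, hxF⟩
            exact (mem_sdiff.1 (h h5)).2 (mem_union_right _ (self_mem_cluster O x))
          omega
      have h4 : ∑ C ∈ G, ev E α (ind s(u, v)) n (F ∪ C) O ≤
          ∑ C ∈ warm F O, ev E α (ind s(u, v)) n (F ∪ C) O :=
        sum_le_sum_of_subset_of_nonneg (filter_subset _ _) fun C _ _ => ev_nonneg hα _ _ _ _
      have h5 : (warm F O).card ≤ G.card + 2 := by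
        have h6 : warm F O ⊆ G ∪ {cluster O u, cluster O v} := by
          intro C hC
          rw [mem_union]
          by_cases hh : u ∉ C ∧ v ∉ C
          · exact Or.inl (mem_filter.2 ⟨hC, hh⟩)
          · right
            rw [mem_insert, mem_singleton]
            obtain ⟨x, hx, rfl⟩ := mem_image.1 hC
            rw [not_and_or, not_not, not_not] at hh
            rcases hh with hh | hh
            · exact Or.inl (cluster_eq hh).symm
            · exact Or.inr (cluster_eq hh).symm
        exact (card_le_card h6).trans ((card_union_le _ _).trans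
          (Nat.add_le_add_left card_le_two _))
      have h7 : ((warm F O).card : ℝ) ≤ G.card + 2 := by exact_mod_cast h5
      rw [nsmul_eq_mul] at h3
      nlinarith
    have hK : α * (((warm F O).card - 2) * c) ≤ α * ∑ C ∈ warm F O,
        ev E α (ind s(u, v)) n (F ∪ C) O :=
      mul_le_mul_of_nonneg_left hB hα.le
    nlinarith

/-- Every edge is open in the final configuration with probability at least `1 / (1 + 2 α)`. -/
theorem pcf_edge {E : Finset (Sym2 V)} {α : ℝ} (hα : 0 < α) (u v : V) (he : s(u, v) ∈ E) :
    1 / (1 + 2 * α) ≤ ev E α (ind s(u, v)) (E.card + Fintype.card V) ∅ ∅ := by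
  refine ev_edge hα u v he _ ∅ ∅ (notMem_empty _) (notMem_empty _) (notMem_empty _) ?_
  rw [sdiff_empty, sdiff_empty, card_univ]

end Pool.Agent.Helper84.PCF
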