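import Pool.Agent.Helper84.PCF.Ev

set_option autoImplicit false

namespace Pool.Agent.Helper84.PCF

open Finset
open scoped Classical

/-- The edges of `ℤ^d` between points of the finite set `B`. -/
noncomputable def edges {d : ℕ} (B : Finset (Fin d → ℤ)) : Finset (Sym2 {x // x ∈ B}) :=
  univ.filter (fun e => ∃ x y : {x // x ∈ B}, e = s(x, y) ∧
    ∃ i : Fin d, (y : Fin d → ℤ) = (x : Fin d → ℤ) + Pi.single i 1)

variable {d : ℕ} {B : Finset (Fin d → ℤ)}

/-- the next point in direction `i` lies in the same cluster -/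
def Next (O : Finset (Sym2 {x // x ∈ B})) (i : Fin d) (x : {x // x ∈ B}) : Prop :=
  ∃ y ∈ cluster O x, (y : Fin d → ℤ) = (x : Fin d → ℤ) + Pi.single i 1

theorem card_open {O : Finset (Sym2 {x // x ∈ B})} (hO : O ⊆ edges B) :
    O.card ≤ ((univ : Finset (Fin d × {x // x ∈ B})).filter (fun p => Next O p.1 p.2)).card := by
  set P := (univ : Finset (Fin d × {x // x ∈ B})).filter (fun p => Next O p.1 p.2) with hP
  let f : Fin d × {x // x ∈ B} → Sym2 {x // x ∈ B} := fun p =>
    if h : Next O p.1 p.2 then s(p.2, h.choose) else s(p.2, p.2)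
  have h1 : O ⊆ P.image f := by
    intro e he
    obtain ⟨-, x, y, rfl, i, hi⟩ := mem_filter.1 (hO he)
    have hne : x ≠ y := by
      rintro rfl
      have h2 := congrFun hi i
      rw [Pi.add_apply, Pi.single_eq_same] at h2
      omega
    have hy : y ∈ cluster O x := by
      rw [mem_cluster]
      apply SimpleGraph.Adj.reachable
      rw [SimpleGraph.fromEdgeSet_adj]
      exact ⟨he, hne⟩
    have hn : Next O i x := ⟨y, hy, hi⟩
    refine mem_image.2 ⟨(i, x), mem_filter.2 ⟨mem_univ _, hn⟩, ?_⟩
    show (if h : Next O i x then s(x, h.choose) else s(x, x)) = s(x, y)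
    rw [dif_pos hn]
    congr 1
    have h3 := hn.choose_spec.2
    have : hn.choose = y := Subtype.ext (h3.trans hi.symm)
    rw [this]
  exact (card_le_card h1).trans card_image_le

theorem exists_last {O : Finset (Sym2 {x // x ∈ B})} (x : {x // x ∈ B}) (i : Fin d) :
    ∃ m ∈ cluster O x, ¬ Next O i m ∧ ∀ j, j ≠ i → (m : Fin d → ℤ) j = (x : Fin d → ℤ) j := by
  set T := (cluster O x).filter
    (fun y : {x // x ∈ B} => ∀ j, j ≠ i → (y : Fin d → ℤ) j = (x : Fin d → ℤ) j) with hT
  have hx : x ∈ T := mem_filter.2 ⟨self_mem_cluster O x, fun _ _ => rfl⟩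
  obtain ⟨m, hm, hmax⟩ := exists_max_image T (fun y : {x // x ∈ B} => (y : Fin d → ℤ) i) ⟨x, hx⟩
  obtain ⟨hm1, hm2⟩ := mem_filter.1 hm
  refine ⟨m, hm1, ?_, hm2⟩
  rintro ⟨y, hy, hyi⟩
  rw [cluster_eq hm1] at hy
  have hyT : y ∈ T := by
    refine mem_filter.2 ⟨hy, fun j hj => ?_⟩
    rw [hyi, Pi.add_apply, Pi.single_eq_of_ne hj, add_zero]
    exact hm2 j hj
  have h1 := hmax y hyT
  simp only [hyi, Pi.add_apply, Pi.single_eq_same] at h1
  omega

theorem card_cluster {O : Finset (Sym2 {x // x ∈ B})} (x : {x // x ∈ B}) {i k : Fin d}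
    (hik : i ≠ k) : (cluster O x).card ≤
      ((cluster O x).filter (fun y => ¬ Next O i y)).card *
        ((cluster O x).filter (fun y => ¬ Next O k y)).card := by
  choose r hr1 hr2 hr3 using fun y : {x // x ∈ B} => exists_last (O := O) y i
  choose u hu1 hu2 hu3 using fun y : {x // x ∈ B} => exists_last (O := O) y k
  rw [← card_product]
  apply card_le_card_of_injOn (fun y => (r y, u y))
  · intro y hy
    have hy' : y ∈ cluster O x := hy
    have e := cluster_eq hy'
    rw [Finset.mem_coe, mem_product]
    exact ⟨mem_filter.2 ⟨e ▸ hr1 y, hr2 y⟩, mem_filter.2 ⟨e ▸ hu1 y, hu2 y⟩⟩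
  · intro y _ z _ h
    have h1 : r y = r z := congrArg Prod.fst h
    have h2 : u y = u z := congrArg Prod.snd h
    apply Subtype.ext
    funext j
    by_cases hj : j = i
    · subst hj
      rw [← hu3 y j hik, ← hu3 z j hik, h2]
    · rw [← hr3 y j hj, ← hr3 z j hj, h1]

theorem sqrt_cluster {O : Finset (Sym2 {x // x ∈ B})} (x : {x // x ∈ B}) {i k : Fin d}
    (hik : i ≠ k) : 2 * Real.sqrt (cluster O x).card ≤
      ((cluster O x).filter (fun y => ¬ Next O i y)).card +
        ((cluster O x).filter (fun y => ¬ Next O k y)).card := by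
  set a := ((cluster O x).filter (fun y => ¬ Next O i y)).card
  set b := ((cluster O x).filter (fun y => ¬ Next O k y)).card
  have h1 : ((cluster O x).card : ℝ) ≤ a * b := by exact_mod_cast card_cluster x hik
  have h2 : Real.sqrt (cluster O x).card ≤ ((a : ℝ) + b) / 2 := by
    rw [Real.sqrt_le_left (by positivity)]
    nlinarith [sq_nonneg ((a : ℝ) - b)]
  linarith

/-- points in clusters with at most `s` points, against the missing steps in two directions -/
theorem small_le {O : Finset (Sym2 {x // x ∈ B})} {i k : Fin d} (hik : i ≠ k) (s : ℕ) :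
    ((univ.filter (fun x : {x // x ∈ B} => (cluster O x).card ≤ s)).card : ℝ) ≤
      Real.sqrt s / 2 * ((univ.filter (fun x : {x // x ∈ B} => ¬ Next O i x)).card +
        (univ.filter (fun x : {x // x ∈ B} => ¬ Next O k x)).card) := by
  set 𝒞 := (univ : Finset {x // x ∈ B}).image (cluster O) with h𝒞
  have hfib : ∀ (p : {x // x ∈ B} → Prop) [DecidablePred p],
      (univ.filter p).card = ∑ C ∈ 𝒞, (C.filter p).card := by
    intro p _
    rw [card_eq_sum_card_fiberwise (f := cluster O) (t := 𝒞)
      (fun x _ => mem_image_of_mem _ (mem_univ x))]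
    refine sum_congr rfl fun C hC => ?_
    obtain ⟨z, -, rfl⟩ := mem_image.1 hC
    congr 1
    ext x
    simp only [mem_filter, mem_univ, true_and]
    constructor
    · rintro ⟨h1, h2⟩
      exact ⟨h2 ▸ self_mem_cluster O x, h1⟩
    · rintro ⟨h1, h2⟩
      exact ⟨h2, cluster_eq h1⟩
  rw [hfib, hfib, hfib]
  push_cast
  rw [← sum_add_distrib, mul_sum]
  refine sum_le_sum fun C hC => ?_
  obtain ⟨z, -, rfl⟩ := mem_image.1 hC
  have h1 := sqrt_cluster (O := O) z hik
  have h2 : (((cluster O z).filter (fun x => (cluster O x).card ≤ s)).card : ℝ) ≤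
      Real.sqrt s * Real.sqrt (cluster O z).card := by
    by_cases hs : (cluster O z).card ≤ s
    · have h3 : (((cluster O z).filter (fun x => (cluster O x).card ≤ s)).card : ℝ) ≤
          (cluster O z).card := by exact_mod_cast card_filter_le _ _
      have h4 : Real.sqrt (cluster O z).card ≤ Real.sqrt s :=
        Real.sqrt_le_sqrt (by exact_mod_cast hs)
      have h5 : ((cluster O z).card : ℝ) =
          Real.sqrt (cluster O z).card * Real.sqrt (cluster O z).card :=
        (Real.mul_self_sqrt (by positivity)).symm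
      calc _ ≤ ((cluster O z).card : ℝ) := h3
        _ = _ := h5
        _ ≤ _ := mul_le_mul_of_nonneg_right h4 (Real.sqrt_nonneg _)
    · have h3 : (cluster O z).filter (fun x => (cluster O x).card ≤ s) = ∅ := by
        rw [filter_eq_empty_iff]
        intro x hx
        rw [cluster_eq hx]
        exact hs
      rw [h3, card_empty, Nat.cast_zero]
      positivity
  have h6 := mul_le_mul_of_nonneg_left h1 (Real.sqrt_nonneg (s : ℝ))
  linarith

theorem pointwise (hd : 2 ≤ d) {O : Finset (Sym2 {x // x ∈ B})} (hO : O ⊆ edges B) (s : ℕ) :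
    ((univ.filter (fun x : {x // x ∈ B} => (cluster O x).card ≤ s)).card : ℝ) +
      Real.sqrt s / 2 * O.card ≤ Real.sqrt s / 2 * (d * B.card) := by
  set i : Fin d := ⟨0, by omega⟩
  set k : Fin d := ⟨1, by omega⟩
  have hik : i ≠ k := by
    intro h
    have := congrArg Fin.val h
    simp [i, k] at this
  have h1 := small_le (O := O) hik s
  have h2 := card_open hO
  have h3 : ((univ : Finset (Fin d × {x // x ∈ B})).filter (fun p => Next O p.1 p.2)).card +
      ((univ : Finset (Fin d × {x // x ∈ B})).filter (fun p => ¬ Next O p.1 p.2)).card =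
        d * B.card := by
    rw [card_filter_add_card_filter_not, card_univ, Fintype.card_prod, Fintype.card_fin,
      Fintype.card_coe]
  have h4 : (univ.filter (fun x : {x // x ∈ B} => ¬ Next O i x)).card +
      (univ.filter (fun x : {x // x ∈ B} => ¬ Next O k x)).card ≤
        ((univ : Finset (Fin d × {x // x ∈ B})).filter (fun p => ¬ Next O p.1 p.2)).card := by
    have e1 : (univ.filter (fun x : {x // x ∈ B} => ¬ Next O i x)).card =
        (({i} : Finset (Fin d)) ×ˢ univ.filter (fun x : {x // x ∈ B} => ¬ Next O i x)).card := by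
      rw [card_product, card_singleton, one_mul]
    have e2 : (univ.filter (fun x : {x // x ∈ B} => ¬ Next O k x)).card =
        (({k} : Finset (Fin d)) ×ˢ univ.filter (fun x : {x // x ∈ B} => ¬ Next O k x)).card := by
      rw [card_product, card_singleton, one_mul]
    rw [e1, e2, ← card_union_of_disjoint]
    · apply card_le_card
      rintro ⟨j, x⟩ hp
      rw [mem_union, mem_product, mem_product, mem_singleton, mem_singleton] at hp
      rw [mem_filter]
      refine ⟨mem_univ _, ?_⟩
      rcases hp with ⟨h5, h6⟩ | ⟨h5, h6⟩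
      · have h5' : j = i := h5
        have := (mem_filter.1 h6).2
        rw [← h5'] at this
        exact this
      · have h5' : j = k := h5
        have := (mem_filter.1 h6).2
        rw [← h5'] at this
        exact this
    · rw [disjoint_left]
      rintro ⟨j, x⟩ hp hp'
      rw [mem_product, mem_singleton] at hp hp'
      exact hik (hp.1.symm.trans hp'.1)
  have h5 : O.card + ((univ.filter (fun x : {x // x ∈ B} => ¬ Next O i x)).card +
      (univ.filter (fun x : {x // x ∈ B} => ¬ Next O k x)).card) ≤ d * B.card := by omega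
  have h6 : (O.card : ℝ) + ((univ.filter (fun x : {x // x ∈ B} => ¬ Next O i x)).card +
      (univ.filter (fun x : {x // x ∈ B} => ¬ Next O k x)).card) ≤ d * B.card := by
    exact_mod_cast h5
  have h7 : 0 ≤ Real.sqrt s / 2 := by positivity
  have h8 := mul_le_mul_of_nonneg_left h6 h7
  linarith


end Pool.Agent.Helper84.PCF
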