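import Mathlib

/-!
# The discrete Loomis-Whitney inequality (helper57)
-/

set_option autoImplicit false

namespace Pool.Agent.Helper84.PCF

open Finset
open scoped Classical

section
variable {ι : Type}

/-- delete the coordinate `i` (set it to zero) -/
noncomputable def del (i : ι) (x : ι → ℤ) : ι → ℤ := Function.update x i 0

theorem del_ne {i j : ι} (h : j ≠ i) (x : ι → ℤ) : del i x j = x j := Function.update_of_ne h _ _

/-- number of points of the projection along the axis `i` -/
noncomputable def pj (C : Finset (ι → ℤ)) (i : ι) : ℕ := (C.image (del i)).card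

theorem pj_pos {C : Finset (ι → ℤ)} (hC : C.Nonempty) (i : ι) : 0 < pj C i :=
  (hC.image _).card_pos

theorem pj_le (C M : Finset (ι → ℤ)) (i : ι) (h : ∀ x ∈ C, ∃ m ∈ M, ∀ j, j ≠ i → m j = x j) :
    pj C i ≤ M.card := by
  have h5 : C.image (del i) ⊆ M.image (del i) := by
    intro y hy
    obtain ⟨x, hx, rfl⟩ := Finset.mem_image.1 hy
    obtain ⟨m, hm, hmx⟩ := h x hx
    refine Finset.mem_image.2 ⟨m, hm, ?_⟩
    funext j
    by_cases hj : j = i
    · subst hj
      unfold del
      rw [Function.update_self, Function.update_self]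
    · rw [del_ne hj, del_ne hj]
      exact hmx j hj
  exact (Finset.card_le_card h5).trans Finset.card_image_le

theorem lw_step (s : Finset ι) (hs : 0 < s.card) (T : Finset ℤ) (a : ℤ → ℝ) (b : ι → ℤ → ℝ)
    (B : ι → ℝ) (P : ℝ) (hP : 0 < P) (hB : ∀ i ∈ s, 0 < B i) (ha : ∀ t ∈ T, 0 ≤ a t)
    (hb : ∀ i ∈ s, ∀ t ∈ T, 0 ≤ b i t) (hsum : ∀ i ∈ s, ∑ t ∈ T, b i t ≤ B i)
    (h : ∀ t ∈ T, a t ^ s.card ≤ P * ∏ i ∈ s, b i t) :
    (∑ t ∈ T, a t) ^ s.card ≤ P * ∏ i ∈ s, B i := by
  set k := s.card with hk
  have hkR : (0 : ℝ) < k := by exact_mod_cast hs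
  have hk0 : k ≠ 0 := by omega
  have hprod : 0 < ∏ i ∈ s, B i := Finset.prod_pos hB
  set Q := P * ∏ i ∈ s, B i with hQ
  have hQ0 : 0 < Q := mul_pos hP hprod
  set q := Q ^ ((k : ℝ)⁻¹) with hq
  have hq0 : 0 < q := Real.rpow_pos_of_pos hQ0 _
  have hqk : q ^ k = Q := Real.rpow_inv_natCast_pow hQ0.le hk0
  have key : ∀ t ∈ T, a t / q ≤ (∑ i ∈ s, b i t / B i) / k := by
    intro t ht
    have h1 : (a t / q) ^ k ≤ ∏ i ∈ s, (b i t / B i) := by
      rw [div_pow, hqk, Finset.prod_div_distrib, div_le_div_iff₀ hQ0 hprod, hQ]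
      calc a t ^ k * ∏ i ∈ s, B i ≤ (P * ∏ i ∈ s, b i t) * ∏ i ∈ s, B i :=
            mul_le_mul_of_nonneg_right (h t ht) hprod.le
        _ = (∏ i ∈ s, b i t) * (P * ∏ i ∈ s, B i) := by ring
    have h2 : (∏ i ∈ s, (b i t / B i)) ^ ((k : ℝ)⁻¹) ≤ (∑ i ∈ s, b i t / B i) / k := by
      have h3 := Real.geom_mean_le_arith_mean s (fun _ => (1 : ℝ)) (fun i => b i t / B i)
        (fun _ _ => zero_le_one)
        (by rw [Finset.sum_const, nsmul_eq_mul, mul_one, ← hk]; exact hkR)
        (fun i hi => div_nonneg (hb i hi t ht) (hB i hi).le)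
      simp only [Real.rpow_one, Finset.sum_const, nsmul_eq_mul, mul_one, one_mul] at h3
      exact h3
    have h4 : a t / q = ((a t / q) ^ k) ^ ((k : ℝ)⁻¹) :=
      (Real.pow_rpow_inv_natCast (div_nonneg (ha t ht) hq0.le) hk0).symm
    rw [h4]
    refine le_trans ?_ h2
    exact Real.rpow_le_rpow (pow_nonneg (div_nonneg (ha t ht) hq0.le) k) h1
      (inv_nonneg.2 hkR.le)
  have h5 : (∑ t ∈ T, a t) / q ≤ 1 := by
    rw [Finset.sum_div]
    calc ∑ t ∈ T, a t / q ≤ ∑ t ∈ T, (∑ i ∈ s, b i t / B i) / k := Finset.sum_le_sum key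
      _ = (∑ i ∈ s, (∑ t ∈ T, b i t) / B i) / k := by
          rw [← Finset.sum_div, Finset.sum_comm]
          congr 1
          exact Finset.sum_congr rfl fun i _ => (Finset.sum_div _ _ _).symm
      _ ≤ (∑ i ∈ s, (1 : ℝ)) / k := by
          apply div_le_div_of_nonneg_right _ hkR.le
          apply Finset.sum_le_sum
          intro i hi
          rw [div_le_one (hB i hi)]
          exact hsum i hi
      _ = 1 := by
          rw [Finset.sum_const, nsmul_eq_mul, mul_one, ← hk]
          exact div_self hkR.ne'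
  rw [div_le_one hq0] at h5
  calc (∑ t ∈ T, a t) ^ k ≤ q ^ k := pow_le_pow_left₀ (Finset.sum_nonneg ha) h5 k
    _ = Q := hqk

theorem lw_aux (s : Finset ι) : ∀ C : Finset (ι → ℤ), C.Nonempty →
    (∀ x ∈ C, ∀ y ∈ C, ∀ j, j ∉ s → x j = y j) →
    (C.card : ℝ) ^ s.card ≤ C.card * ∏ i ∈ s, (pj C i : ℝ) := by
  induction s using Finset.induction_on with
  | empty =>
    intro C hC _
    rw [Finset.card_empty, pow_zero, Finset.prod_empty, mul_one]
    exact_mod_cast hC.card_pos
  | insert j s hj ih =>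
    intro C hC h
    have hcard : (0 : ℝ) < C.card := by exact_mod_cast hC.card_pos
    have hPj : (0 : ℝ) < pj C j := by exact_mod_cast pj_pos hC j
    rw [Finset.card_insert_of_notMem hj, Finset.prod_insert hj, pow_succ, mul_comm]
    apply mul_le_mul_of_nonneg_left _ hcard.le
    by_cases hk : s.card = 0
    · rw [hk, pow_zero]
      rw [Finset.card_eq_zero] at hk
      rw [hk, Finset.prod_empty, mul_one]
      exact_mod_cast pj_pos hC j
    · set T := C.image (fun x => x j) with hT
      have hsum : (∑ t ∈ T, (((C.filter (fun x => x j = t)).card : ℕ) : ℝ)) = C.card := by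
        rw [Finset.card_eq_sum_card_fiberwise (f := fun x : ι → ℤ => x j) (t := T)
          (fun x hx => Finset.mem_image_of_mem _ hx)]
        push_cast
        rfl
      rw [← hsum]
      apply lw_step s (by omega) T (fun t => (((C.filter (fun x => x j = t)).card : ℕ) : ℝ))
        (fun i t => ((pj (C.filter (fun x => x j = t)) i : ℕ) : ℝ)) (fun i => (pj C i : ℝ))
        (pj C j : ℝ) hPj (fun i _ => by exact_mod_cast pj_pos hC i)
        (fun t _ => Nat.cast_nonneg _) (fun i _ t _ => Nat.cast_nonneg _)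
      · intro i hi
        have hij : j ≠ i := by
          rintro rfl
          exact hj hi
        have e : (C.image (del i)).card = ∑ t ∈ T, ((C.image (del i)).filter
            (fun y => y j = t)).card := by
          apply Finset.card_eq_sum_card_fiberwise
          intro y hy
          obtain ⟨x, hx, rfl⟩ := Finset.mem_image.1 (Finset.mem_coe.1 hy)
          show del i x j ∈ _
          rw [del_ne hij]
          exact Finset.mem_coe.2 (Finset.mem_image_of_mem _ hx)
        have e2 : ∀ t, ((C.filter (fun x => x j = t)).image (del i)) =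
            (C.image (del i)).filter (fun y => y j = t) := by
          intro t
          ext y
          simp only [Finset.mem_image, Finset.mem_filter]
          constructor
          · rintro ⟨x, ⟨hx, hxt⟩, rfl⟩
            exact ⟨⟨x, hx, rfl⟩, by rw [del_ne hij]; exact hxt⟩
          · rintro ⟨⟨x, hx, rfl⟩, hxt⟩
            rw [del_ne hij] at hxt
            exact ⟨x, ⟨hx, hxt⟩, rfl⟩
        apply le_of_eq
        unfold pj
        rw [e]
        push_cast
        refine Finset.sum_congr rfl fun t _ => ?_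
        rw [e2]
      · intro t ht
        obtain ⟨x0, hx0, hx0t⟩ := Finset.mem_image.1 ht
        have hne : (C.filter (fun x => x j = t)).Nonempty :=
          ⟨x0, Finset.mem_filter.2 ⟨hx0, hx0t⟩⟩
        have h1 := ih (C.filter (fun x => x j = t)) hne (by
          intro x hx y hy l hl
          rw [Finset.mem_filter] at hx hy
          by_cases hlj : l = j
          · rw [hlj, hx.2, hy.2]
          · exact h x hx.1 y hy.1 l (by
              rw [Finset.mem_insert]
              rintro (h' | h')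
              · exact hlj h'
              · exact hl h'))
        refine h1.trans ?_
        apply mul_le_mul_of_nonneg_right _ (Finset.prod_nonneg fun i _ => Nat.cast_nonneg _)
        have h2 : (C.filter (fun x => x j = t)).card ≤ pj C j := by
          rw [← Finset.card_image_of_injOn (f := del j) (s := C.filter (fun x => x j = t))]
          · exact Finset.card_le_card (Finset.image_subset_image (Finset.filter_subset _ _))
          · intro x hx y hy hxy
            have hx' := (Finset.mem_filter.1 (Finset.mem_coe.1 hx)).2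
            have hy' := (Finset.mem_filter.1 (Finset.mem_coe.1 hy)).2
            funext l
            by_cases hl : l = j
            · rw [hl, hx', hy']
            · have := congrFun hxy l
              rwa [del_ne hl, del_ne hl] at this
        exact_mod_cast h2

end

/-- the form for clusters with at most `s` points -/
theorem lw_small {d : ℕ} (hd : 0 < d) (C : Finset (Fin d → ℤ)) (hC : C.Nonempty) (s : ℕ)
    (hs : C.card ≤ s) :
    (C.card : ℝ) ≤ (s : ℝ) ^ ((d : ℝ)⁻¹) / d * ∑ i, (pj C i : ℝ) := by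
  have hd0 : d ≠ 0 := by omega
  have hdR : (0 : ℝ) < d := by exact_mod_cast hd
  have h1 := lw_aux (Finset.univ : Finset (Fin d)) C hC (fun x _ y _ j hj => absurd (Finset.mem_univ j) hj)
  rw [Finset.card_univ, Fintype.card_fin] at h1
  have hprod : 0 ≤ ∏ i, (pj C i : ℝ) := Finset.prod_nonneg fun i _ => Nat.cast_nonneg _
  have h2 : (C.card : ℝ) ^ d ≤ s * ∏ i, (pj C i : ℝ) :=
    h1.trans (mul_le_mul_of_nonneg_right (by exact_mod_cast hs) hprod)
  have h3 : (∏ i, (pj C i : ℝ)) ^ ((d : ℝ)⁻¹) ≤ (∑ i, (pj C i : ℝ)) / d := by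
    have h4 := Real.geom_mean_le_arith_mean (Finset.univ : Finset (Fin d)) (fun _ => (1 : ℝ))
      (fun i => (pj C i : ℝ)) (fun _ _ => zero_le_one)
      (by rw [Finset.sum_const, nsmul_eq_mul, mul_one, Finset.card_univ, Fintype.card_fin]; exact hdR)
      (fun i _ => Nat.cast_nonneg _)
    simp only [Real.rpow_one, Finset.sum_const, nsmul_eq_mul, mul_one, one_mul, Finset.card_univ,
      Fintype.card_fin] at h4
    exact h4
  calc (C.card : ℝ) = ((C.card : ℝ) ^ d) ^ ((d : ℝ)⁻¹) :=
        (Real.pow_rpow_inv_natCast (Nat.cast_nonneg _) hd0).symm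
    _ ≤ (s * ∏ i, (pj C i : ℝ)) ^ ((d : ℝ)⁻¹) :=
        Real.rpow_le_rpow (by positivity) h2 (by positivity)
    _ = (s : ℝ) ^ ((d : ℝ)⁻¹) * (∏ i, (pj C i : ℝ)) ^ ((d : ℝ)⁻¹) :=
        Real.mul_rpow (Nat.cast_nonneg _) hprod
    _ ≤ (s : ℝ) ^ ((d : ℝ)⁻¹) * ((∑ i, (pj C i : ℝ)) / d) :=
        mul_le_mul_of_nonneg_left h3 (by positivity)
    _ = (s : ℝ) ^ ((d : ℝ)⁻¹) / d * ∑ i, (pj C i : ℝ) := by ring

/-- **Loomis-Whitney**, with sets `M i` which meet every line of direction `i` through `C`. -/
theorem lw (d : ℕ) (C : Finset (Fin d → ℤ)) (hC : C.Nonempty) (M : Fin d → Finset (Fin d → ℤ))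
    (h : ∀ x ∈ C, ∀ i, ∃ m ∈ M i, ∀ j, j ≠ i → m j = x j) :
    C.card ^ (d - 1) ≤ ∏ i, (M i).card := by
  have hpos := hC.card_pos
  have h1 := lw_aux (Finset.univ : Finset (Fin d)) C hC
    (fun x _ y _ j hj => absurd (Finset.mem_univ j) hj)
  rw [Finset.card_univ, Fintype.card_fin] at h1
  have h2 : C.card ^ d ≤ C.card * ∏ i, pj C i := by exact_mod_cast h1
  have h3 : C.card ^ (d - 1) ≤ ∏ i, pj C i := by
    rcases Nat.eq_zero_or_pos d with h0 | h0
    · subst h0
      simp
    · have h4 : C.card ^ d = C.card * C.card ^ (d - 1) := by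
        rw [← pow_succ']
        congr 1
        omega
      rw [h4] at h2
      exact Nat.le_of_mul_le_mul_left h2 hpos
  exact h3.trans (Finset.prod_le_prod' fun i _ => pj_le C (M i) i fun x hx => h x hx i)

end Pool.Agent.Helper84.PCF
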