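import Mathlib

/-!
# An increasing sequence of good finite sets (helper57)
-/

set_option autoImplicit false

namespace Pool.Agent.Helper84.PCF

/-- a bound for the coordinates of the points of a finite set -/
def rad {d : ℕ} (C : Finset (Fin d → ℤ)) : ℕ :=
  C.sup fun x => (Finset.univ : Finset (Fin d)).sup fun i => (x i).natAbs

theorem le_rad {d : ℕ} {C : Finset (Fin d → ℤ)} {x : Fin d → ℤ} (hx : x ∈ C) (i : Fin d) :
    (x i).natAbs ≤ rad C :=
  (Finset.le_sup (f := fun i => (x i).natAbs) (Finset.mem_univ i)).trans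
    (Finset.le_sup (f := fun x : Fin d → ℤ => (Finset.univ : Finset (Fin d)).sup
      fun i => (x i).natAbs) hx)

theorem nest (d : ℕ) (G : ℕ → Finset (Fin d → ℤ) → Prop)
    (h : ∀ R : ℕ, ∃ B : Finset (Fin d → ℤ), (∀ x : Fin d → ℤ, (∀ i, |x i| ≤ R) → x ∈ B) ∧ G R B) :
    ∃ B : ℕ → Finset (Fin d → ℤ), Monotone B ∧ (∀ x, ∃ n, x ∈ B n) ∧ (0 ∈ B 0) ∧
      ∀ n, ∃ R ≥ n, G R (B n) := by
  choose f hf hG using h
  let r : ℕ → ℕ := fun n => Nat.rec 0 (fun _ k => max (k + 1) (rad (f k))) n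
  have hr1 : ∀ n, r (n + 1) = max (r n + 1) (rad (f (r n))) := fun n => rfl
  have hrn : ∀ n, n ≤ r n := by
    intro n
    induction n with
    | zero => exact Nat.zero_le _
    | succ n ih =>
      rw [hr1]
      exact (Nat.succ_le_succ ih).trans (le_max_left _ _)
  refine ⟨fun n => f (r n), ?_, ?_, ?_, fun n => ⟨r n, hrn n, hG _⟩⟩
  · apply monotone_nat_of_le_succ
    intro n x hx
    apply hf
    intro i
    have h1 : (x i).natAbs ≤ r (n + 1) := (le_rad hx i).trans (by rw [hr1]; exact le_max_right _ _)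
    rw [Int.abs_eq_natAbs]
    exact_mod_cast h1
  · intro x
    refine ⟨rad {x}, ?_⟩
    apply hf
    intro i
    have h1 : (x i).natAbs ≤ r (rad {x}) :=
      (le_rad (Finset.mem_singleton_self x) i).trans (hrn _)
    rw [Int.abs_eq_natAbs]
    exact_mod_cast h1
  · apply hf
    intro i
    simp

end Pool.Agent.Helper84.PCF
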