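import Pool.Agent.Helper84.PCF.LW
import Pool.Agent.Helper84.PCF.Box

set_option autoImplicit false

namespace Pool.Agent.Helper84.PCF

open Finset
open scoped Classical

variable {d : ℕ} {B : Finset (Fin d → ℤ)}

/-- the missing steps of a cluster in all directions -/
theorem cluster_lw (hd : 1 ≤ d) {O : Finset (Sym2 {x // x ∈ B})} (x : {x // x ∈ B}) :
    (d : ℝ) * ((cluster O x).card : ℝ) ^ (((d : ℝ) - 1) / d) ≤
      ∑ i, (((cluster O x).filter (fun y => ¬ Next O i y)).card : ℝ) := by
  have hd0 : (0 : ℝ) < d := by exact_mod_cast hd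
  have h1 := lw d ((cluster O x).map (Function.Embedding.subtype _))
    ⟨_, mem_map_of_mem _ (self_mem_cluster O x)⟩
    (fun i => ((cluster O x).filter (fun y => ¬ Next O i y)).map (Function.Embedding.subtype _)) (by
      intro z hz i
      obtain ⟨y, hy, rfl⟩ := mem_map.1 hz
      obtain ⟨m, hm1, hm2, hm3⟩ := exists_last (O := O) y i
      rw [cluster_eq hy] at hm1
      exact ⟨m, mem_map.2 ⟨m, mem_filter.2 ⟨hm1, hm2⟩, rfl⟩, hm3⟩)
  simp only [card_map] at h1
  have h2 : ((cluster O x).card : ℝ) ^ (d - 1) ≤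
      ∏ i, (((cluster O x).filter (fun y => ¬ Next O i y)).card : ℝ) := by exact_mod_cast h1
  have h3 := Real.geom_mean_le_arith_mean_weighted (univ : Finset (Fin d)) (fun _ => (1 : ℝ) / d)
    (fun i => (((cluster O x).filter (fun y => ¬ Next O i y)).card : ℝ))
    (fun _ _ => by positivity) (by
      rw [sum_const, card_univ, Fintype.card_fin, nsmul_eq_mul, mul_one_div, div_self hd0.ne'])
    (fun _ _ => by positivity)
  have h4 : ((cluster O x).card : ℝ) ^ (((d : ℝ) - 1) / d) ≤
      ∏ i, (((cluster O x).filter (fun y => ¬ Next O i y)).card : ℝ) ^ ((1 : ℝ) / d) := by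
    rw [Real.finset_prod_rpow _ _ (fun _ _ => by positivity)]
    have h5 : ((cluster O x).card : ℝ) ^ (((d : ℝ) - 1) / d) =
        (((cluster O x).card : ℝ) ^ (d - 1)) ^ ((1 : ℝ) / d) := by
      rw [← Real.rpow_natCast, ← Real.rpow_mul (by positivity), Nat.cast_sub hd, Nat.cast_one,
        mul_one_div]
    rw [h5]
    exact Real.rpow_le_rpow (by positivity) h2 (by positivity)
  have h6 := h4.trans h3
  rw [← mul_sum] at h6
  have h7 := mul_le_mul_of_nonneg_left h6 hd0.le
  rw [← mul_assoc, mul_one_div, div_self hd0.ne', one_mul] at h7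
  exact h7

theorem small_le3 (hd : 1 ≤ d) {O : Finset (Sym2 {x // x ∈ B})} (s : ℕ) :
    ((univ.filter (fun x : {x // x ∈ B} => (cluster O x).card ≤ s)).card : ℝ) ≤
      (s : ℝ) ^ ((1 : ℝ) / d) / d *
        ∑ i, ((univ.filter (fun x : {x // x ∈ B} => ¬ Next O i x)).card : ℝ) := by
  have hd0 : (0 : ℝ) < d := by exact_mod_cast hd
  set 𝒞 := (univ : Finset {x // x ∈ B}).image (cluster O) with h𝒞
  have hfib : ∀ (p : {x // x ∈ B} → Prop) [DecidablePred p],
      (univ.filter p).card = ∑ C ∈ 𝒞, (C.filter p).card := by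
    intro p _
    rw [card_eq_sum_card_fiberwise (f := cluster O) (t := 𝒞)
      (fun x _ => mem_image_of_mem _ (mem_univ x))]
    refine sum_congr rfl fun C hC => ?_
    obtain ⟨z, -, rfl⟩ := mem_image.1 hC
    congr 1
    ext x
    simp only [mem_filter, mem_univ, true_and]
    constructor
    · rintro ⟨h1, h2⟩
      exact ⟨h2 ▸ self_mem_cluster O x, h1⟩
    · rintro ⟨h1, h2⟩
      exact ⟨h2, cluster_eq h1⟩
  have h8 : ∑ i, ((univ.filter (fun x : {x // x ∈ B} => ¬ Next O i x)).card : ℝ) =
      ∑ C ∈ 𝒞, ∑ i, ((C.filter (fun x => ¬ Next O i x)).card : ℝ) := by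
    rw [sum_comm]
    refine sum_congr rfl fun i _ => ?_
    rw [hfib]
    push_cast
    rfl
  rw [h8, hfib]
  push_cast
  rw [mul_sum]
  refine sum_le_sum fun C hC => ?_
  obtain ⟨z, -, rfl⟩ := mem_image.1 hC
  have h1 := cluster_lw hd (O := O) z
  by_cases hs : (cluster O z).card ≤ s
  · have h3 : (((cluster O z).filter (fun x => (cluster O x).card ≤ s)).card : ℝ) ≤
        (cluster O z).card := by exact_mod_cast card_filter_le _ _
    have hc0 : (0 : ℝ) < (cluster O z).card := by
      exact_mod_cast card_pos.2 ⟨z, self_mem_cluster O z⟩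
    have h4 : ((cluster O z).card : ℝ) ^ ((1 : ℝ) / d) ≤ (s : ℝ) ^ ((1 : ℝ) / d) :=
      Real.rpow_le_rpow hc0.le (by exact_mod_cast hs) (by positivity)
    have h5 : ((cluster O z).card : ℝ) = ((cluster O z).card : ℝ) ^ ((1 : ℝ) / d) / d *
        (d * ((cluster O z).card : ℝ) ^ (((d : ℝ) - 1) / d)) := by
      rw [div_mul_eq_mul_div, ← mul_assoc, mul_comm _ (d : ℝ), mul_assoc,
        mul_div_cancel_left₀ _ hd0.ne', ← Real.rpow_add hc0]
      have : (1 : ℝ) / d + ((d : ℝ) - 1) / d = 1 := by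
        rw [← add_div, add_sub_cancel, div_self hd0.ne']
      rw [this, Real.rpow_one]
    refine h3.trans (h5.le.trans ?_)
    exact mul_le_mul (div_le_div_of_nonneg_right h4 hd0.le) h1
      (mul_nonneg hd0.le (Real.rpow_nonneg hc0.le _))
      (div_nonneg (Real.rpow_nonneg (Nat.cast_nonneg s) _) hd0.le)
  · have h3 : (cluster O z).filter (fun x => (cluster O x).card ≤ s) = ∅ := by
      rw [filter_eq_empty_iff]
      intro x hx
      rw [cluster_eq hx]
      exact hs
    rw [h3, card_empty, Nat.cast_zero]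
    exact mul_nonneg (div_nonneg (Real.rpow_nonneg (Nat.cast_nonneg s) _) hd0.le)
      (sum_nonneg fun i _ => Nat.cast_nonneg _)

theorem card_next3 {O : Finset (Sym2 {x // x ∈ B})} (hO : O ⊆ edges B) :
    O.card + ∑ i, (univ.filter (fun x : {x // x ∈ B} => ¬ Next O i x)).card ≤ d * B.card := by
  have h2 := card_open hO
  have h3 : ((univ : Finset (Fin d × {x // x ∈ B})).filter (fun p => Next O p.1 p.2)).card +
      ((univ : Finset (Fin d × {x // x ∈ B})).filter (fun p => ¬ Next O p.1 p.2)).card =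
        d * B.card := by
    rw [card_filter_add_card_filter_not, card_univ, Fintype.card_prod, Fintype.card_fin,
      Fintype.card_coe]
  have h4 : ∑ i, (univ.filter (fun x : {x // x ∈ B} => ¬ Next O i x)).card ≤
      ((univ : Finset (Fin d × {x // x ∈ B})).filter (fun p => ¬ Next O p.1 p.2)).card := by
    rw [← card_sigma]
    apply card_le_card_of_injOn (fun p => (p.1, p.2))
    · rintro ⟨i, x⟩ hp
      rw [Finset.mem_coe, mem_sigma] at hp
      rw [Finset.mem_coe, mem_filter]
      exact ⟨mem_univ _, (mem_filter.1 hp.2).2⟩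
    · rintro ⟨i, x⟩ _ ⟨j, y⟩ _ h
      have h5 : i = j := congrArg Prod.fst h
      have h6 : x = y := congrArg Prod.snd h
      rw [h5, h6]
  omega

/-- from a pointwise bound to the expectation -/
theorem region_of (B : Finset (Fin d → ℤ)) {α : ℝ} (hα : 0 < α) (s : ℕ) {c : ℝ} (hc : 0 ≤ c)
    (h : ∀ O ⊆ edges B, ((univ.filter (fun x : {x // x ∈ B} => (cluster O x).card ≤ s)).card : ℝ) +
      c * O.card ≤ c * (d * B.card)) :
    pcf (edges B) α
        (fun O => ((univ.filter (fun x : {x // x ∈ B} => (cluster O x).card ≤ s)).card : ℝ)) ≤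
      c * (d * B.card - (edges B).card / (1 + 2 * α)) := by
  unfold pcf
  have e1 := ev_add (E := edges B) (α := α)
    (fun O => ((univ.filter (fun x : {x // x ∈ B} => (cluster O x).card ≤ s)).card : ℝ))
    (fun O => c * ∑ e ∈ edges B, ind e O)
    ((edges B).card + Fintype.card {x // x ∈ B}) ∅ ∅
  have e2 := ev_smul (E := edges B) (α := α) c
    (fun O => ∑ e ∈ edges B, ind e O) ((edges B).card + Fintype.card {x // x ∈ B}) ∅ ∅
  have e3 := ev_sum (E := edges B) hα (edges B) (fun e => ind e)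
    ((edges B).card + Fintype.card {x // x ∈ B}) ∅ ∅
  have e0 := ev_const (E := edges B) hα (c * (d * B.card))
    ((edges B).card + Fintype.card {x // x ∈ B}) ∅ ∅
  have h1 := ev_mono (E := edges B) hα
    (φ := fun O => ((univ.filter (fun x : {x // x ∈ B} => (cluster O x).card ≤ s)).card : ℝ) +
      c * ∑ e ∈ edges B, ind e O)
    (ψ := fun _ => c * (d * B.card))
    (fun O hO => by
      show ((univ.filter (fun x : {x // x ∈ B} => (cluster O x).card ≤ s)).card : ℝ) +
        c * ∑ e ∈ edges B, ind e O ≤ c * (d * B.card)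
      rw [sum_ind hO]
      exact h O hO)
    ((edges B).card + Fintype.card {x // x ∈ B}) ∅ ∅ (empty_subset _)
  rw [e0, e1, e2, e3] at h1
  refine final_step hc h1 ?_ rfl
  rw [← nsmul_eq_mul]
  apply card_nsmul_le_sum
  intro e he
  induction e with
  | h u v => exact pcf_edge hα u v he

/-- the bound with Loomis-Whitney -/
theorem region3 (hd : 1 ≤ d) (B : Finset (Fin d → ℤ)) {α : ℝ} (hα : 0 < α) (s : ℕ) :
    pcf (edges B) α
        (fun O => ((univ.filter (fun x : {x // x ∈ B} => (cluster O x).card ≤ s)).card : ℝ)) ≤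
      (s : ℝ) ^ ((1 : ℝ) / d) / d * (d * B.card - (edges B).card / (1 + 2 * α)) := by
  refine region_of B hα s (by positivity) fun O hO => ?_
  have h1 := small_le3 hd (O := O) s
  have h2 : (O.card : ℝ) +
      ∑ i, ((univ.filter (fun x : {x // x ∈ B} => ¬ Next O i x)).card : ℝ) ≤ d * B.card := by
    exact_mod_cast card_next3 hO
  have h3 := mul_le_mul_of_nonneg_left h2
    (show (0 : ℝ) ≤ (s : ℝ) ^ ((1 : ℝ) / d) / d by positivity)
  linarith

end Pool.Agent.Helper84.PCF
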