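import Pool.Agent.Helper84.PCF.Geo

set_option autoImplicit false

namespace Pool.Agent.Helper84.PCF

open Finset
open scoped Classical

variable {d : ℕ}

theorem sum_ind {B : Finset (Fin d → ℤ)} {O : Finset (Sym2 {x // x ∈ B})} (hO : O ⊆ edges B) :
    ∑ e ∈ edges B, ind e O = O.card := by
  rw [← sum_subset hO (f := fun e => ind e O) (fun e _ he => by
    show ind e O = 0
    unfold ind
    rw [if_neg he]), sum_congr rfl (g := fun _ => (1 : ℝ)) (fun e he => by
    show ind e O = 1
    unfold ind
    rw [if_pos he]), sum_const, nsmul_eq_mul, mul_one]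

theorem final_step {X S c K M N q : ℝ} (hc : 0 ≤ c) (h1 : X + c * S ≤ c * M) (h4 : N * (1 / q) ≤ S)
    (hK : K = M - N / q) : X ≤ c * K := by
  have h5 := mul_le_mul_of_nonneg_left h4 hc
  rw [hK]
  have h6 : N / q = N * (1 / q) := by rw [mul_one_div]
  rw [h6]
  linarith

/-- the general bound for a finite region -/
theorem region (hd : 2 ≤ d) (B : Finset (Fin d → ℤ)) {α : ℝ} (hα : 0 < α) (s : ℕ) :
    pcf (edges B) α
        (fun O => ((univ.filter (fun x : {x // x ∈ B} => (cluster O x).card ≤ s)).card : ℝ)) ≤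
      Real.sqrt s / 2 * (d * B.card - (edges B).card / (1 + 2 * α)) := by
  unfold pcf
  have e1 := ev_add (E := edges B) (α := α)
    (fun O => ((univ.filter (fun x : {x // x ∈ B} => (cluster O x).card ≤ s)).card : ℝ))
    (fun O => Real.sqrt s / 2 * ∑ e ∈ edges B, ind e O)
    ((edges B).card + Fintype.card {x // x ∈ B}) ∅ ∅
  have e2 := ev_smul (E := edges B) (α := α) (Real.sqrt s / 2)
    (fun O => ∑ e ∈ edges B, ind e O) ((edges B).card + Fintype.card {x // x ∈ B}) ∅ ∅
  have e3 := ev_sum (E := edges B) hα (edges B) (fun e => ind e)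
    ((edges B).card + Fintype.card {x // x ∈ B}) ∅ ∅
  have e0 := ev_const (E := edges B) hα (Real.sqrt s / 2 * (d * B.card))
    ((edges B).card + Fintype.card {x // x ∈ B}) ∅ ∅
  have h1 := ev_mono (E := edges B) hα
    (φ := fun O => ((univ.filter (fun x : {x // x ∈ B} => (cluster O x).card ≤ s)).card : ℝ) +
      Real.sqrt s / 2 * ∑ e ∈ edges B, ind e O)
    (ψ := fun _ => Real.sqrt s / 2 * (d * B.card))
    (fun O hO => by
      show ((univ.filter (fun x : {x // x ∈ B} => (cluster O x).card ≤ s)).card : ℝ) +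
        Real.sqrt s / 2 * ∑ e ∈ edges B, ind e O ≤ Real.sqrt s / 2 * (d * B.card)
      rw [sum_ind hO]
      exact pointwise hd hO s)
    ((edges B).card + Fintype.card {x // x ∈ B}) ∅ ∅ (empty_subset _)
  rw [e0, e1, e2, e3] at h1
  refine final_step (by positivity) h1 ?_ rfl
  rw [← nsmul_eq_mul]
  apply card_nsmul_le_sum
  intro e he
  induction e with
  | h u v =>
    exact pcf_edge hα u v he

end Pool.Agent.Helper84.PCF
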