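import Pool.Agent.Helper84.PCF.Trans

set_option autoImplicit false

namespace Pool.Agent.Helper84.PCF

open Finset
open scoped Classical

/-- The probability that the cluster of the point `v` of `B` in the final configuration of
percolation with constant freezing on `B` has at most `s` points. -/
noncomputable def small {d : ℕ} (α : ℝ) (s : ℕ) (B : Finset (Fin d → ℤ)) (v : {x // x ∈ B}) : ℝ :=
  pcf (edges B) α (fun O => if (cluster O v).card ≤ s then 1 else 0)

/-- the translate of `B` which takes `v` to `0` -/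
def shift {d : ℕ} (B : Finset (Fin d → ℤ)) (v : Fin d → ℤ) : Finset (Fin d → ℤ) :=
  B.map (Equiv.subRight v).toEmbedding

theorem mem_shift {d : ℕ} {B : Finset (Fin d → ℤ)} {v x : Fin d → ℤ} :
    x ∈ shift B v ↔ x + v ∈ B := by
  unfold shift
  rw [mem_map_equiv]
  rfl

/-- the bijection -/
def shiftEquiv {d : ℕ} (B : Finset (Fin d → ℤ)) (v : Fin d → ℤ) :
    {x // x ∈ B} ≃ {x // x ∈ shift B v} where
  toFun x := ⟨x.1 - v, by rw [mem_shift, sub_add_cancel]; exact x.2⟩
  invFun y := ⟨y.1 + v, mem_shift.1 y.2⟩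
  left_inv x := Subtype.ext (sub_add_cancel _ _)
  right_inv y := Subtype.ext (add_sub_cancel_right _ _)

theorem edges_shift {d : ℕ} (B : Finset (Fin d → ℤ)) (v : Fin d → ℤ) :
    edges (shift B v) = mapE (shiftEquiv B v) (edges B) := by
  ext e'
  obtain ⟨e, rfl⟩ : ∃ e, Sym2.map (shiftEquiv B v) e = e' :=
    ⟨Sym2.map (shiftEquiv B v).symm e', by rw [Sym2.map_map]; simp⟩
  rw [mem_mapE]
  unfold edges
  rw [mem_filter, mem_filter]
  constructor
  · rintro ⟨-, x, y, hxy, i, hi⟩
    refine ⟨mem_univ _, (shiftEquiv B v).symm x, (shiftEquiv B v).symm y, ?_, i, ?_⟩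
    · have h1 := congrArg (Sym2.map (shiftEquiv B v).symm) hxy
      rw [Sym2.map_map] at h1
      simpa using h1
    · show y.1 + v = x.1 + v + Pi.single i 1
      rw [hi]
      abel
  · rintro ⟨-, x, y, rfl, i, hi⟩
    refine ⟨mem_univ _, shiftEquiv B v x, shiftEquiv B v y, by simp, i, ?_⟩
    show y.1 - v = x.1 - v + Pi.single i 1
    rw [hi]
    abel

/-- translation invariance -/
theorem small_shift {d : ℕ} (α : ℝ) (s : ℕ) (B : Finset (Fin d → ℤ)) (v x : {x // x ∈ B}) :
    small α s (shift B v) (shiftEquiv B v x) = small α s B x := by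
  unfold small
  rw [edges_shift, pcf_map]
  congr 1
  funext O
  rw [cluster_map, card_map]

theorem shiftEquiv_self {d : ℕ} (B : Finset (Fin d → ℤ)) (v : {x // x ∈ B}) :
    (shiftEquiv B v v : Fin d → ℤ) = 0 := sub_self _

/-- the expected number of points in small clusters is the sum of the probabilities -/
theorem sum_small {d : ℕ} {α : ℝ} (hα : 0 < α) (s : ℕ) (B : Finset (Fin d → ℤ)) :
    ∑ v : {x // x ∈ B}, small α s B v = pcf (edges B) α
      (fun O => ((univ.filter (fun x : {x // x ∈ B} => (cluster O x).card ≤ s)).card : ℝ)) := by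
  unfold small pcf
  rw [← ev_sum hα]
  congr 1
  funext O
  rw [card_filter]
  push_cast
  rfl

end Pool.Agent.Helper84.PCF
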