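import Pool.Agent.Helper84.PCF.Opt

set_option autoImplicit false

/-! Transport of percolation with constant freezing along a bijection of the vertices. -/

namespace Pool.Agent.Helper84.PCF

open Finset
open scoped Classical

variable {V W : Type} [Fintype V] [Fintype W]

/-- the edge map -/
def em (e : V ≃ W) : Sym2 V ↪ Sym2 W := e.toEmbedding.sym2Map

omit [Fintype V] [Fintype W] in
theorem em_mk (e : V ≃ W) (a b : V) : em e s(a, b) = s(e a, e b) := rfl

omit [Fintype V] [Fintype W] in
theorem mem_em {e : V ≃ W} {O : Finset (Sym2 V)} {a b : V} :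
    s(e a, e b) ∈ O.map (em e) ↔ s(a, b) ∈ O := by
  rw [← em_mk, mem_map' (em e)]

theorem reach_map (e : V ≃ W) (O : Finset (Sym2 V)) (x y : V) :
    (SimpleGraph.fromEdgeSet ((O.map (em e) : Finset (Sym2 W)) : Set (Sym2 W))).Reachable (e x) (e y) ↔
      (SimpleGraph.fromEdgeSet (O : Set (Sym2 V))).Reachable x y := by
  let i : SimpleGraph.fromEdgeSet (O : Set (Sym2 V)) ≃g
      SimpleGraph.fromEdgeSet ((O.map (em e) : Finset (Sym2 W)) : Set (Sym2 W)) :=
    { toEquiv := e
      map_rel_iff' := by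
        intro a b
        rw [SimpleGraph.fromEdgeSet_adj, SimpleGraph.fromEdgeSet_adj, mem_coe, mem_coe, mem_em]
        simp }
  exact SimpleGraph.Iso.reachable_iff (φ := i)

theorem cluster_map (e : V ≃ W) (O : Finset (Sym2 V)) (x : V) :
    cluster (O.map (em e)) (e x) = (cluster O x).map e.toEmbedding := by
  ext y
  obtain ⟨z, rfl⟩ := e.surjective y
  rw [mem_cluster, reach_map, show e z = e.toEmbedding z from rfl, mem_map', mem_cluster]

theorem live_map (e : V ≃ W) (E : Finset (Sym2 V)) (F : Finset V) (O : Finset (Sym2 V)) :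
    live (E.map (em e)) (F.map e.toEmbedding) (O.map (em e)) = (live E F O).map (em e) := by
  ext q
  constructor
  · intro hq
    obtain ⟨h1, h2, h3⟩ := mem_filter.1 hq
    obtain ⟨p, hp, rfl⟩ := mem_map.1 h1
    refine mem_map_of_mem _ (mem_filter.2 ⟨hp, fun h => h2 (mem_map_of_mem _ h), fun v hv hF => ?_⟩)
    refine h3 (e v) ?_ (mem_map_of_mem e.toEmbedding hF)
    change e v ∈ Sym2.map e p
    exact Sym2.mem_map.2 ⟨v, hv, rfl⟩
  · intro hq
    obtain ⟨p, hp, rfl⟩ := mem_map.1 hq
    obtain ⟨h1, h2, h3⟩ := mem_filter.1 hp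
    refine mem_filter.2 ⟨mem_map_of_mem _ h1, fun h => h2 ((mem_map' _).1 h), fun w hw hF => ?_⟩
    change w ∈ Sym2.map e p at hw
    obtain ⟨v, hv, rfl⟩ := Sym2.mem_map.1 hw
    exact h3 v hv ((mem_map' e.toEmbedding).1 hF)

theorem warm_map (e : V ≃ W) (F : Finset V) (O : Finset (Sym2 V)) :
    warm (F.map e.toEmbedding) (O.map (em e)) =
      (warm F O).image (fun C : Finset V => C.map e.toEmbedding) := by
  ext C
  constructor
  · intro hC
    obtain ⟨y, hy, rfl⟩ := mem_image.1 hC
    obtain ⟨x, rfl⟩ := e.surjective y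
    rw [cluster_map]
    refine mem_image.2 ⟨cluster O x, mem_image.2 ⟨x, mem_filter.2
      ⟨mem_univ _, fun h => (mem_filter.1 hy).2 (mem_map_of_mem e.toEmbedding h)⟩, rfl⟩, rfl⟩
  · intro hC
    obtain ⟨C', hC', rfl⟩ := mem_image.1 hC
    obtain ⟨x, hx, rfl⟩ := mem_image.1 hC'
    refine mem_image.2 ⟨e x, mem_filter.2 ⟨mem_univ _, fun h => (mem_filter.1 hx).2
      ((mem_map' e.toEmbedding).1 h)⟩, cluster_map e O x⟩

theorem ev_map (e : V ≃ W) (E : Finset (Sym2 V)) (α : ℝ) (φ : Finset (Sym2 W) → ℝ) (n : ℕ) :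
    ∀ (F : Finset V) (O : Finset (Sym2 V)),
      ev (E.map (em e)) α φ n (F.map e.toEmbedding) (O.map (em e)) =
        ev E α (fun O => φ (O.map (em e))) n F O := by
  induction n with
  | zero => intro F O; rfl
  | succ n ih =>
    intro F O
    have hinj : Function.Injective (fun C : Finset V => C.map e.toEmbedding) :=
      Finset.map_injective _
    simp only [ev]
    rw [live_map, warm_map, card_image_of_injective _ hinj, card_map,
      sum_image (fun _ _ _ _ h => hinj h), sum_map]
    simp only [map_eq_empty]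
    split_ifs with h
    · rfl
    · congr 2
      · refine sum_congr rfl fun q _ => ?_
        rw [← ih, map_insert]
      · congr 1
        refine sum_congr rfl fun C _ => ?_
        rw [← ih, map_union]

theorem pcf_map (e : V ≃ W) (E : Finset (Sym2 V)) (α : ℝ) (φ : Finset (Sym2 W) → ℝ) :
    pcf (E.map (em e)) α φ = pcf E α (fun O => φ (O.map (em e))) := by
  unfold pcf
  rw [card_map, ← Fintype.card_congr e, ← ev_map, map_empty, map_empty]

end Pool.Agent.Helper84.PCF
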