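import Pool.Agent.Helper84.PCF.Box

set_option autoImplicit false

namespace Pool.Agent.Helper84.PCF

open Finset
open scoped Classical

section
variable {V W : Type} [Fintype V] [Fintype W]

/-- the image of a set of edges under a bijection of the vertices -/
noncomputable def mapE (f : V ≃ W) (O : Finset (Sym2 V)) : Finset (Sym2 W) :=
  O.map ⟨Sym2.map f, Sym2.map.injective f.injective⟩

theorem mem_mapE (f : V ≃ W) (O : Finset (Sym2 V)) (e : Sym2 V) :
    Sym2.map f e ∈ mapE f O ↔ e ∈ O :=
  mem_map' (⟨Sym2.map f, Sym2.map.injective f.injective⟩ : Sym2 V ↪ Sym2 W)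

theorem cluster_map (f : V ≃ W) (O : Finset (Sym2 V)) (x : V) :
    cluster (mapE f O) (f x) = (cluster O x).map f.toEmbedding := by
  have hadj : ∀ a b : V, (SimpleGraph.fromEdgeSet ((mapE f O : Finset (Sym2 W)) : Set (Sym2 W))).Adj
      (f a) (f b) ↔ (SimpleGraph.fromEdgeSet (O : Set (Sym2 V))).Adj a b := by
    intro a b
    rw [SimpleGraph.fromEdgeSet_adj, SimpleGraph.fromEdgeSet_adj, Finset.mem_coe, Finset.mem_coe,
      f.injective.ne_iff]
    have := mem_mapE f O s(a, b)
    rw [Sym2.map_pair_eq] at this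
    rw [this]
  let φ : SimpleGraph.fromEdgeSet (O : Set (Sym2 V)) ≃g
      SimpleGraph.fromEdgeSet ((mapE f O : Finset (Sym2 W)) : Set (Sym2 W)) := ⟨f, hadj _ _⟩
  ext y
  rw [mem_map_equiv, mem_cluster, mem_cluster]
  have h1 := φ.reachable_iff (u := x) (v := f.symm y)
  have h2 : φ (f.symm y) = y := f.apply_symm_apply y
  rw [h2] at h1
  exact h1

theorem live_map (f : V ≃ W) (E : Finset (Sym2 V)) (F : Finset V) (O : Finset (Sym2 V)) :
    live (mapE f E) (F.map f.toEmbedding) (mapE f O) = mapE f (live E F O) := by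
  ext e'
  obtain ⟨e, rfl⟩ : ∃ e, Sym2.map f e = e' :=
    ⟨Sym2.map f.symm e', by rw [Sym2.map_map]; simp⟩
  rw [mem_mapE]
  unfold live
  rw [mem_filter, mem_filter, mem_mapE, mem_mapE]
  induction e with
  | h a b =>
    simp [Sym2.map_pair_eq]

theorem warm_map (f : V ≃ W) (F : Finset V) (O : Finset (Sym2 V)) :
    warm (F.map f.toEmbedding) (mapE f O) =
      (warm F O).map ⟨fun C => C.map f.toEmbedding, Finset.map_injective _⟩ := by
  ext C
  unfold warm
  rw [mem_image, mem_map]
  constructor
  · rintro ⟨y, hy, rfl⟩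
    obtain ⟨x, rfl⟩ := f.surjective y
    refine ⟨cluster O x, mem_image_of_mem _ (mem_filter.2 ⟨mem_univ _, fun h => ?_⟩), ?_⟩
    · exact (mem_filter.1 hy).2 (mem_map_of_mem _ h)
    · exact (cluster_map f O x).symm
  · rintro ⟨D, hD, rfl⟩
    obtain ⟨x, hx, rfl⟩ := mem_image.1 hD
    refine ⟨f x, mem_filter.2 ⟨mem_univ _, fun h => ?_⟩, cluster_map f O x⟩
    exact (mem_filter.1 hx).2 ((mem_map' f.toEmbedding).1 h)

theorem ev_map (f : V ≃ W) (E : Finset (Sym2 V)) (α : ℝ) (ψ : Finset (Sym2 W) → ℝ) (n : ℕ) :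
    ∀ (F : Finset V) (O : Finset (Sym2 V)),
      ev (mapE f E) α ψ n (F.map f.toEmbedding) (mapE f O) =
        ev E α (fun O => ψ (mapE f O)) n F O := by
  induction n with
  | zero => intro F O; rfl
  | succ n ih =>
    intro F O
    simp only [ev]
    rw [live_map, warm_map]
    have h0 : mapE f (live E F O) = ∅ ↔ live E F O = ∅ := map_eq_empty
    have h1 : (mapE f (live E F O)).card = (live E F O).card := card_map _
    by_cases h : live E F O = ∅
    · rw [if_pos (h0.2 h), if_pos h]
    · rw [if_neg (fun h' => h (h0.1 h')), if_neg h, h1, card_map]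
      congr 1
      congr 1
      · have h2 : ∑ e ∈ mapE f (live E F O),
            ev (mapE f E) α ψ n (F.map f.toEmbedding) (insert e (mapE f O)) =
          ∑ e ∈ live E F O, ev (mapE f E) α ψ n (F.map f.toEmbedding)
            (insert (Sym2.map f e) (mapE f O)) := sum_map _ _ _
        rw [h2]
        refine sum_congr rfl fun e _ => ?_
        rw [← ih F (insert e O)]
        congr 1
        unfold mapE
        rw [map_insert]
        rfl
      · congr 1
        rw [sum_map]
        refine sum_congr rfl fun C _ => ?_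
        rw [← ih (F ∪ C) O]
        congr 1
        exact (map_union _ _).symm

theorem pcf_map (f : V ≃ W) (E : Finset (Sym2 V)) (α : ℝ) (ψ : Finset (Sym2 W) → ℝ) :
    pcf (mapE f E) α ψ = pcf E α (fun O => ψ (mapE f O)) := by
  unfold pcf
  have h := ev_map f E α ψ (E.card + Fintype.card V) ∅ ∅
  have h1 : (mapE f E).card = E.card := card_map _
  rw [h1, ← Fintype.card_congr f, ← h]
  rfl

end

end Pool.Agent.Helper84.PCF
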