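import Pool.Agent.Helper84.PCF.Tr

set_option autoImplicit false

/-! From boxes to local limits: the cluster of the origin. -/

namespace Pool.Agent.Helper84.PCF

open Finset Filter Topology
open scoped Classical

variable {d : ℕ}

/-- The probability that, in the final configuration of percolation with constant freezing at rate
`α` on the graph induced on the finite set `B`, the cluster of the origin has at most `s` points
(zero if the origin is not in `B`). -/
noncomputable def originSmall (α : ℝ) (s : ℕ) (B : Finset (Fin d → ℤ)) : ℝ :=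
  if h : (0 : Fin d → ℤ) ∈ B then
    pcf (edges B) α (fun O => if (cluster O ⟨0, h⟩).card ≤ s then 1 else 0) else 0

/-- The cubes of `ℤ^d`: the sets `{x | v i ≤ x i < v i + n for all i}`. -/
def IsCube (B : Finset (Fin d → ℤ)) : Prop :=
  ∃ (v : Fin d → ℤ) (n : ℕ), ∀ x, x ∈ B ↔ ∀ i, v i ≤ x i ∧ x i < v i + n

theorem isCube_shift (n : ℕ) (x₀ : Fin d → ℤ) :
    IsCube ((box d n).map (Equiv.subRight x₀).toEmbedding) := by
  refine ⟨-x₀, n, fun x => ?_⟩
  have h : x ∈ (box d n).map (Equiv.subRight x₀).toEmbedding ↔ x + x₀ ∈ box d n := by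
    constructor
    · intro hx
      obtain ⟨y, hy, hyx⟩ := mem_map.1 hx
      have h1 : x + x₀ = y := by
        rw [← hyx]
        exact sub_add_cancel y x₀
      rw [h1]
      exact hy
    · intro hx
      exact mem_map.2 ⟨x + x₀, hx, add_sub_cancel_right x x₀⟩
  rw [h, mem_box]
  refine forall_congr' fun i => ?_
  rw [Pi.add_apply, Pi.neg_apply]
  omega

/-- the same for the point `x` -/
noncomputable def pr (B : Finset (Fin d → ℤ)) (α : ℝ) (s : ℕ) (x : {x // x ∈ B}) : ℝ :=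
  pcf (edges B) α (fun O => if (cluster O x).card ≤ s then 1 else 0)

theorem pr_nonneg (B : Finset (Fin d → ℤ)) {α : ℝ} (hα : 0 < α) (s : ℕ) (x : {x // x ∈ B}) :
    0 ≤ pr B α s x := by
  have h1 := ev_mono (E := edges B) hα (φ := fun _ => (0 : ℝ))
    (ψ := fun O => if (cluster O x).card ≤ s then 1 else 0)
    (fun O _ => by split_ifs <;> norm_num) ((edges B).card + Fintype.card {x // x ∈ B}) ∅ ∅
    (empty_subset _)
  rw [ev_const hα] at h1
  exact h1

theorem sum_pr (B : Finset (Fin d → ℤ)) {α : ℝ} (hα : 0 < α) (s : ℕ) :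
    ∑ x, pr B α s x = pcf (edges B) α
      (fun O => ((univ.filter (fun x : {x // x ∈ B} => (cluster O x).card ≤ s)).card : ℝ)) := by
  unfold pr pcf
  rw [← ev_sum hα]
  congr 1
  funext O
  rw [Finset.natCast_card_filter]

/-- translation -/
def shiftE (B : Finset (Fin d → ℤ)) (x₀ : Fin d → ℤ) :
    {x // x ∈ B} ≃ {x // x ∈ B.map (Equiv.subRight x₀).toEmbedding} :=
  (Equiv.subRight x₀).subtypeEquiv (fun _ => (mem_map' (Equiv.subRight x₀).toEmbedding).symm)

theorem shiftE_coe (B : Finset (Fin d → ℤ)) (x₀ : Fin d → ℤ) (x : {x // x ∈ B}) :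
    ((shiftE B x₀ x : {x // x ∈ B.map (Equiv.subRight x₀).toEmbedding}) : Fin d → ℤ) = x - x₀ := rfl

theorem edges_shift (B : Finset (Fin d → ℤ)) (x₀ : Fin d → ℤ) :
    edges (B.map (Equiv.subRight x₀).toEmbedding) = (edges B).map (em (shiftE B x₀)) := by
  ext q
  constructor
  · intro hq
    obtain ⟨x, y, rfl, i, hi⟩ := (mem_filter.1 hq).2
    obtain ⟨x', rfl⟩ := (shiftE B x₀).surjective x
    obtain ⟨y', rfl⟩ := (shiftE B x₀).surjective y
    rw [shiftE_coe, shiftE_coe] at hi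
    rw [mem_em]
    refine mem_filter.2 ⟨mem_univ _, x', y', rfl, i, ?_⟩
    have h : (y' : Fin d → ℤ) = (y' - x₀) + x₀ := by abel
    rw [h, hi]
    abel
  · intro hq
    obtain ⟨p, hp, rfl⟩ := mem_map.1 hq
    obtain ⟨x, y, rfl, i, hi⟩ := (mem_filter.1 hp).2
    refine mem_filter.2 ⟨mem_univ _, shiftE B x₀ x, shiftE B x₀ y, rfl, i, ?_⟩
    rw [shiftE_coe, shiftE_coe, hi]
    abel

theorem origin_shift (B : Finset (Fin d → ℤ)) (x₀ : {x // x ∈ B}) (α : ℝ) (s : ℕ) :
    originSmall α s (B.map (Equiv.subRight (x₀ : Fin d → ℤ)).toEmbedding) = pr B α s x₀ := by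
  have h0 : (0 : Fin d → ℤ) ∈ B.map (Equiv.subRight (x₀ : Fin d → ℤ)).toEmbedding :=
    mem_map.2 ⟨x₀, x₀.2, sub_self _⟩
  have h1 : (⟨0, h0⟩ : {x // x ∈ B.map (Equiv.subRight (x₀ : Fin d → ℤ)).toEmbedding}) =
      shiftE B x₀ x₀ := Subtype.ext (sub_self (x₀ : Fin d → ℤ)).symm
  unfold originSmall pr
  rw [dif_pos h0, edges_shift, pcf_map]
  congr 1
  funext O
  rw [h1, cluster_map, card_map]

theorem deep {α : ℝ} (hα : 0 < α) (s : ℕ) (c : ℝ)
    (hbox : ∀ n : ℕ, 1 ≤ n → ∑ x, pr (box d n) α s x ≤ c * (2 * α + 1 / n) * (n : ℝ) ^ d)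
    (S : Finset (Fin d → ℤ)) (ε : ℝ) (hε : 0 < ε) :
    ∃ B : Finset (Fin d → ℤ), IsCube B ∧ S ⊆ B ∧ originSmall α s B ≤ 2 * α * c + ε := by
  obtain ⟨R, hR⟩ : ∃ R : ℕ, ∀ x ∈ S, ∀ i, |x i| ≤ R := by
    refine ⟨∑ x ∈ S, ∑ i, (x i).natAbs, fun x hx i => ?_⟩
    have h1 : (x i).natAbs ≤ ∑ i, (x i).natAbs :=
      single_le_sum (f := fun i => (x i).natAbs) (fun _ _ => Nat.zero_le _) (mem_univ i)
    have h2 : ∑ i, (x i).natAbs ≤ ∑ x ∈ S, ∑ i, (x i).natAbs :=
      single_le_sum (f := fun x : Fin d → ℤ => ∑ i, (x i).natAbs) (fun _ _ => Nat.zero_le _) hx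
    rw [Int.abs_eq_natAbs]
    exact_mod_cast h1.trans h2
  have hlim : Tendsto (fun n : ℕ => (2 * α * c + ε) * (1 - 2 * R * (1 / (n : ℝ))) ^ d -
      c * (2 * α + 1 / n)) atTop (𝓝 ((2 * α * c + ε) * (1 - 2 * R * 0) ^ d - c * (2 * α + 0))) := by
    have h1 : Tendsto (fun n : ℕ => 1 / (n : ℝ)) atTop (𝓝 0) := tendsto_one_div_atTop_nhds_zero_nat
    exact (((h1.const_mul _).const_sub _).pow _ |>.const_mul _).sub ((h1.const_add _).const_mul _)
  have hpos : 0 < (2 * α * c + ε) * (1 - 2 * R * 0) ^ d - c * (2 * α + 0) := by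
    rw [mul_zero, sub_zero, one_pow, add_zero, mul_one]
    linarith
  obtain ⟨n, hn1, hn2⟩ := ((hlim.eventually (lt_mem_nhds hpos)).and (eventually_ge_atTop (2 * R + 1))).exists
  have hn0 : (0 : ℝ) < n := by
    have : 0 < n := by omega
    exact_mod_cast this
  by_contra hcon
  push Not at hcon
  let g : (Fin d → ℤ) → ℝ := fun x => if h : x ∈ box d n then pr (box d n) α s ⟨x, h⟩ else 0
  let T : Finset (Fin d → ℤ) := Fintype.piFinset fun _ => Ico (R : ℤ) ((n : ℤ) - R)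
  have hT : ∀ x ∈ T, ∀ i, (R : ℤ) ≤ x i ∧ x i < n - R := by
    intro x hx i
    exact mem_Ico.1 (Fintype.mem_piFinset.1 hx i)
  have hTbox : T ⊆ box d n := by
    intro x hx
    rw [mem_box]
    intro i
    have := hT x hx i
    omega
  have hg : ∀ x ∈ T, 2 * α * c + ε ≤ g x := by
    intro x hx
    have hb := hTbox hx
    have h1 := hcon ((box d n).map (Equiv.subRight x).toEmbedding) (isCube_shift n x) (by
      intro y hy
      refine mem_map.2 ⟨y + x, ?_, add_sub_cancel_right y x⟩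
      rw [mem_box]
      intro i
      have h2 := hT x hx i
      have h3 := abs_le.1 (hR y hy i)
      rw [Pi.add_apply]
      omega)
    have h2 := origin_shift (box d n) ⟨x, hb⟩ α s
    rw [show g x = pr (box d n) α s ⟨x, hb⟩ from dif_pos hb, ← h2]
    exact h1.le
  have hg0 : ∀ x ∈ box d n, x ∉ T → 0 ≤ g x := by
    intro x hx _
    rw [show g x = pr (box d n) α s ⟨x, hx⟩ from dif_pos hx]
    exact pr_nonneg _ hα s _
  have hsum : ∑ x, pr (box d n) α s x = ∑ x ∈ box d n, g x := by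
    rw [← Finset.sum_coe_sort (box d n) g]
    refine sum_congr rfl fun x _ => ?_
    have hx : g (x : Fin d → ℤ) = pr (box d n) α s ⟨x, x.2⟩ := dif_pos x.2
    exact hx.symm
  have h1 : (T.card : ℝ) * (2 * α * c + ε) ≤ ∑ x ∈ box d n, g x := by
    calc (T.card : ℝ) * (2 * α * c + ε) = ∑ _x ∈ T, (2 * α * c + ε) := by
          rw [sum_const, nsmul_eq_mul]
      _ ≤ ∑ x ∈ T, g x := sum_le_sum hg
      _ ≤ _ := sum_le_sum_of_subset_of_nonneg hTbox hg0
  have hcard : (T.card : ℝ) = ((n : ℝ) - 2 * R) ^ d := by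
    have h2 : T.card = (n - 2 * R) ^ d := by
      rw [Fintype.card_piFinset]
      simp only [Int.card_Ico, prod_const, card_univ, Fintype.card_fin]
      congr 1
      omega
    rw [h2, Nat.cast_pow, Nat.cast_sub (by omega)]
    push_cast
    rfl
  have h2 := hbox n (by omega)
  rw [hsum] at h2
  have h3 := h1.trans h2
  rw [hcard] at h3
  have h4 : ((n : ℝ) - 2 * R) ^ d = (1 - 2 * R * (1 / (n : ℝ))) ^ d * (n : ℝ) ^ d := by
    rw [← mul_pow]
    congr 1
    field_simp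
  rw [h4] at h3
  have h5 : 0 < (n : ℝ) ^ d := by positivity
  have h6 : (2 * α * c + ε) * (1 - 2 * R * (1 / (n : ℝ))) ^ d * (n : ℝ) ^ d ≤
      c * (2 * α + 1 / n) * (n : ℝ) ^ d := by
    refine le_trans (le_of_eq ?_) h3
    ring
  have h7 := le_of_mul_le_mul_right h6 h5
  linarith

/-- the bound for local limits -/
theorem zd {α : ℝ} (hα : 0 < α) (s : ℕ) (c : ℝ)
    (hbox : ∀ n : ℕ, 1 ≤ n → ∑ x, pr (box d n) α s x ≤ c * (2 * α + 1 / n) * (n : ℝ) ^ d) (t : ℝ)
    (ht : ∀ B : ℕ → Finset (Fin d → ℤ), (∀ n, IsCube (B n)) → Monotone B → (∀ x, ∃ n, x ∈ B n) →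
      Tendsto (fun n => originSmall α s (B n)) atTop (𝓝 t)) : t ≤ 2 * α * c := by
  have hk : ∀ (S : Finset (Fin d → ℤ)) (k : ℕ), ∃ B : Finset (Fin d → ℤ), IsCube B ∧ S ⊆ B ∧
      originSmall α s B ≤ 2 * α * c + 1 / ((k : ℝ) + 1) :=
    fun S k => deep hα s c hbox S _ (by positivity)
  choose F hF0 hF1 hF2 using hk
  let ball : ℕ → Finset (Fin d → ℤ) := fun k => Fintype.piFinset fun _ => Icc (-(k : ℤ)) k
  let B : ℕ → Finset (Fin d → ℤ) := fun n => Nat.rec (F ∅ 0) (fun k C => F (C ∪ ball k) (k + 1)) n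
  have hB : ∀ k, B (k + 1) = F (B k ∪ ball k) (k + 1) := fun k => rfl
  have hcube : ∀ n, IsCube (B n) := by
    intro n
    cases n with
    | zero => exact hF0 ∅ 0
    | succ k => exact hF0 _ (k + 1)
  have hmono : Monotone B := by
    refine monotone_nat_of_le_succ fun k => ?_
    rw [hB]
    exact subset_union_left.trans (hF1 _ _)
  have hex : ∀ x, ∃ n, x ∈ B n := by
    intro x
    refine ⟨∑ i, (x i).natAbs + 1, ?_⟩
    rw [hB]
    apply hF1
    refine mem_union_right _ (Fintype.mem_piFinset.2 fun i => mem_Icc.2 ?_)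
    have h1 : (x i).natAbs ≤ ∑ i, (x i).natAbs :=
      single_le_sum (f := fun i => (x i).natAbs) (fun _ _ => Nat.zero_le _) (mem_univ i)
    have h2 : |x i| ≤ ((∑ i, (x i).natAbs : ℕ) : ℤ) := by
      rw [Int.abs_eq_natAbs]
      exact_mod_cast h1
    exact abs_le.1 h2
  have hle : ∀ n, originSmall α s (B n) ≤ 2 * α * c + 1 / ((n : ℝ) + 1) := by
    intro n
    cases n with
    | zero => exact hF2 ∅ 0
    | succ k => exact hF2 _ (k + 1)
  have h2 : Tendsto (fun n : ℕ => 2 * α * c + 1 / ((n : ℝ) + 1)) atTop (𝓝 (2 * α * c + 0)) :=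
    tendsto_one_div_add_atTop_nhds_zero_nat.const_add _
  rw [add_zero] at h2
  exact le_of_tendsto_of_tendsto' (ht B hcube hmono hex) h2 hle

end Pool.Agent.Helper84.PCF
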